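import Pool.Agent.H.MP_10e324_an.A

set_option autoImplicit false
open Filter Topology Metric Set Pool.Agent.H.MP_10e324_an

namespace Pool.Agent.H.MP_5011cf_an

theorem landau {L : ℂ → ℂ} (hL : DifferentiableOn ℂ L (ball 0 1)) {a : ℂ} {R : ℝ} (hR : 0 < R)
    (hs : closedBall a R ⊆ ball 0 1) :
    ∃ c, ball c (R * ‖deriv L a‖ / 48) ⊆ L '' ball 0 1 := by
  have h1 := hL.deriv isOpen_ball
  obtain ⟨p, hp, h2⟩ := (isCompact_closedBall a R).exists_isMaxOn ⟨a, mem_closedBall_self hR.le⟩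
    (f := fun z => (R - dist z a) * ‖deriv L z‖)
    (ContinuousOn.mul (by fun_prop) (h1.continuousOn.mono hs).norm)
  have h3 : (R - dist a a) * ‖deriv L a‖ ≤ (R - dist p a) * ‖deriv L p‖ :=
    h2 (mem_closedBall_self hR.le)
  rw [dist_self, sub_zero] at h3
  refine ⟨L p, fun w hw => ?_⟩
  rw [mem_ball, dist_comm, dist_eq_norm] at hw
  obtain ⟨t, ht⟩ : ∃ t, R - dist p a = 2 * t := ⟨(R - dist p a) / 2, by ring⟩
  rw [ht] at h3
  have t0 : 0 < t := by
    by_contra hc
    nlinarith [norm_nonneg (L p - w), norm_nonneg (deriv L p)]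
  have h4 : closedBall p t ⊆ closedBall a R := closedBall_subset_closedBall' (by linarith)
  have h5 : MapsTo (deriv L) (ball p t) (closedBall (deriv L p) (3 * ‖deriv L p‖)) := fun z hz => by
    have b1 : (R - dist z a) * ‖deriv L z‖ ≤ (R - dist p a) * ‖deriv L p‖ :=
      h2 (h4 (ball_subset_closedBall hz))
    rw [ht] at b1
    have b2 : t ≤ R - dist z a := by linarith [dist_triangle z p a, mem_ball.mp hz]
    have b3 : ‖deriv L z‖ ≤ 2 * ‖deriv L p‖ := le_of_mul_le_mul_left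
      (by nlinarith [norm_nonneg (deriv L z)]) t0
    rw [mem_closedBall, dist_eq_norm]
    linarith [norm_sub_le (deriv L z) (deriv L p)]
  have h6 : closedBall p (t / 6) ⊆ ball p t := closedBall_subset_ball (by linarith)
  have h7 : ball p t ⊆ ball 0 1 := ball_subset_closedBall.trans (h4.trans hs)
  refine minmod (a := p) (ρ := t / 6) (by positivity) (h6.trans h7) hL
    (m := t * ‖deriv L p‖ / 24) (fun z hz => ?_) (by linarith)
  have b1 := (convex_closedBall p (t / 6)).norm_image_sub_le_of_norm_hasDerivWithin_le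
    (f := fun z => L z - deriv L p * z) (f' := fun z => deriv L z - deriv L p * 1)
    (C := ‖deriv L p‖ / 2) (fun x hx => ((hL.differentiableAt (isOpen_ball.mem_nhds
      (h7 (h6 hx)))).hasDerivAt.sub ((hasDerivAt_id x).const_mul _)).hasDerivWithinAt)
    (fun x hx => by
      have := Complex.dist_le_div_mul_dist_of_mapsTo_ball (h1.mono h7) h5 (h6 hx)
      rw [mul_one, ← dist_eq_norm]
      refine this.trans ((mul_le_mul_of_nonneg_left (mem_closedBall.mp hx)
        (by positivity)).trans (le_of_eq ?_))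
      field_simp
      ring) (mem_closedBall_self (by positivity)) (sphere_subset_closedBall hz)
  have b2 := norm_sub_le (L z - w - (L z - deriv L p * z - (L p - deriv L p * p))) (L p - w)
  rw [show L z - w - (L z - deriv L p * z - (L p - deriv L p * p)) - (L p - w) =
    deriv L p * (z - p) by ring, norm_mul] at b2
  rw [mem_sphere_iff_norm.mp hz] at b1 b2
  linarith [norm_sub_le (L z - w) (L z - deriv L p * z - (L p - deriv L p * p))]

theorem logf {g : ℂ → ℂ} (hg : DifferentiableOn ℂ g (ball 0 1)) (h : ∀ z ∈ ball (0 : ℂ) 1, g z ≠ 0) :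
    ∃ L : ℂ → ℂ, ∀ z ∈ ball (0 : ℂ) 1, HasDerivAt L (deriv g z / g z) z ∧ Complex.exp (L z) = g z := by
  obtain ⟨L, h0, h1⟩ := ((hg.deriv isOpen_ball).div hg h).isExactOn_ball.with_val_at 0
    (Complex.log (g 0))
  have h2 : ∀ z ∈ ball (0 : ℂ) 1, HasDerivAt (fun z => Complex.exp (L z) / g z) 0 z := fun z hz => by
    refine ((h1 z hz).cexp.div (hg.differentiableAt (isOpen_ball.mem_nhds hz)).hasDerivAt
      (h z hz)).congr_deriv ?_
    simp only [Pi.div_apply]
    field_simp [h z hz]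
    ring
  refine ⟨L, fun z hz => ⟨h1 z hz, ?_⟩⟩
  have h3 := isOpen_ball.is_const_of_deriv_eq_zero (convex_ball 0 1).isPreconnected
    (fun z hz => (h2 z hz).differentiableAt.differentiableWithinAt) (fun z hz => (h2 z hz).deriv)
    hz (mem_ball_self one_pos)
  rwa [h0, Complex.exp_log (h 0 (mem_ball_self one_pos)), div_self (h 0 (mem_ball_self one_pos)),
    div_eq_one_iff_eq (h z hz)] at h3

theorem omit1 {f : ℂ → ℂ} (hf : DifferentiableOn ℂ f (ball 0 1)) (hi : InjOn f (ball 0 1)) :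
    deriv f 0 ≠ 0 ∧ ∃ w ∉ f '' ball 0 1, ‖f 0 - w‖ ≤ 2 * ‖deriv f 0‖ := by
  have m0 : (0 : ℂ) ∈ ball (0 : ℂ) 1 := mem_ball_self one_pos
  have h1 := inv_an (hf.analyticOnNhd isOpen_ball) ⟨0, m0, 2⁻¹, by simp; norm_num,
    fun e => by simpa using hi m0 (by simp; norm_num) e⟩ hi
  have h2 : deriv (Function.invFunOn f (ball 0 1)) (f 0) * deriv f 0 = 1 :=
    ((h1 _ (mem_image_of_mem f m0)).differentiableAt.hasDerivAt.comp 0
      (hf.differentiableAt (isOpen_ball.mem_nhds m0)).hasDerivAt).unique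
      ((hasDerivAt_id 0).congr_of_eventuallyEq ((isOpen_ball.eventually_mem m0).mono
        fun z hz => hi.leftInvOn_invFunOn hz))
  have h3 : deriv f 0 ≠ 0 := right_ne_zero_of_mul_eq_one h2
  refine ⟨h3, ?_⟩
  by_contra hc
  have h4 : ball (f 0) (2 * ‖deriv f 0‖) ⊆ f '' ball 0 1 := fun w hw => by
    by_contra e
    exact hc ⟨w, e, by rw [← dist_eq_norm, dist_comm]; exact (mem_ball.mp hw).le⟩
  have h5 := Complex.norm_deriv_le_div_of_mapsTo_ball (h1.differentiableOn.mono h4) (R₂ := 1)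
    (fun w hw => by
      rw [hi.leftInvOn_invFunOn m0]
      exact ball_subset_closedBall (Function.invFunOn_mem (h4 hw))) (by positivity)
  have h6 := congrArg norm h2
  rw [norm_mul, norm_one] at h6
  rw [le_div_iff₀ (by positivity)] at h5
  linarith

theorem dist1 {f : ℂ → ℂ} (hf : DifferentiableOn ℂ f (ball 0 1)) (hi : InjOn f (ball 0 1))
    {z : ℂ} (hz : ‖z‖ ≤ 1 / 2) : ‖deriv f z‖ ≤ 1536 * Real.exp 384 * ‖deriv f 0‖ := by
  obtain ⟨-, w, h1, h2⟩ := omit1 hf hi
  have h3 : ∀ z ∈ ball (0 : ℂ) 1, f z - w ≠ 0 := fun z hz e => h1 ⟨z, hz, sub_eq_zero.mp e⟩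
  obtain ⟨L, hL⟩ := logf (hf.sub_const w) h3
  have h4 : closedBall (0 : ℂ) (1 / 2) ⊆ ball 0 1 := closedBall_subset_ball (by norm_num)
  have h5 : ∀ x ∈ closedBall (0 : ℂ) (1 / 2), ‖deriv L x‖ ≤ 768 := fun x hx => by
    obtain ⟨c, hc⟩ := landau (fun z hz => (hL z hz).1.differentiableAt.differentiableWithinAt)
      (a := x) (R := 1 / 4) (by norm_num) (closedBall_subset_ball' (by
        linarith [mem_closedBall.mp hx]))
    by_contra e
    have b0 : ‖(Real.pi * Complex.I : ℂ)‖ < 1 / 4 * ‖deriv L x‖ / 48 := by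
      rw [norm_mul, Complex.norm_I, Complex.norm_real, Real.norm_of_nonneg Real.pi_pos.le]
      linarith [Real.pi_lt_four]
    obtain ⟨a, ha, b1⟩ := hc (a := c + Real.pi * Complex.I) (by simpa using b0)
    obtain ⟨b, hb, b2⟩ := hc (a := c - Real.pi * Complex.I) (by simpa using b0)
    have b3 : f a - w = f b - w := by
      rw [← (hL a ha).2, ← (hL b hb).2, b1, b2, Complex.exp_add, Complex.exp_sub,
        Complex.exp_pi_mul_I]
      ring
    rw [hi ha hb (sub_left_injective b3), b2, sub_eq_add_neg, add_right_inj,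
      CharZero.neg_eq_self_iff] at b1
    exact mul_ne_zero (Complex.ofReal_ne_zero.mpr Real.pi_ne_zero) Complex.I_ne_zero b1
  have hz' := mem_closedBall_zero_iff.mpr hz
  have h6 := (convex_closedBall (0 : ℂ) (1 / 2)).norm_image_sub_le_of_norm_deriv_le
    (fun x hx => (hL x (h4 hx)).1.differentiableAt) h5 (mem_closedBall_self (by norm_num)) hz'
  have h7 := h5 z hz'
  rw [(hL z (h4 hz')).1.deriv, deriv_sub_const, norm_div, div_le_iff₀
    (norm_pos_iff.mpr (h3 z (h4 hz'))), ← (hL z (h4 hz')).2, Complex.norm_exp] at h7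
  rw [← (hL 0 (mem_ball_self one_pos)).2, Complex.norm_exp] at h2
  have h8 : Real.exp (L z).re ≤ Real.exp 384 * Real.exp (L 0).re := by
    rw [← Real.exp_add, Real.exp_le_exp]
    have := (Complex.re_le_norm _).trans h6
    rw [Complex.sub_re, sub_zero] at this
    linarith
  nlinarith [Real.exp_pos 384]

theorem dist2 {f : ℂ → ℂ} (hf : DifferentiableOn ℂ f (ball 0 1)) (hi : InjOn f (ball 0 1))
    {z w : ℂ} (hw : ‖w‖ < 1) (hz : ‖z - w‖ ≤ (1 - ‖w‖) / 2) :
    ‖deriv f z‖ ≤ 1536 * Real.exp 384 * ‖deriv f w‖ := by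
  obtain ⟨ρ, hρ⟩ : ∃ ρ : ℝ, ρ = 1 - ‖w‖ := ⟨_, rfl⟩
  have r0 : 0 < ρ := by linarith
  have r1 : (ρ : ℂ) ≠ 0 := by exact_mod_cast r0.ne'
  have h1 : MapsTo (fun s : ℂ => w + ρ * s) (ball 0 1) (ball 0 1) := fun s hs => by
    rw [mem_ball_zero_iff] at hs ⊢
    refine (norm_add_le _ _).trans_lt ?_
    rw [norm_mul, Complex.norm_real, Real.norm_of_nonneg r0.le]
    nlinarith
  have h2 : ∀ s ∈ ball (0 : ℂ) 1, deriv (fun s => f (w + ρ * s)) s = deriv f (w + ρ * s) * (ρ * 1) :=
    fun s hs => ((hf.differentiableAt (isOpen_ball.mem_nhds (h1 hs))).hasDerivAt.comp s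
      (((hasDerivAt_id s).const_mul _).const_add w)).deriv
  have h3 : ‖(z - w) / ρ‖ ≤ 1 / 2 := by
    rw [norm_div, Complex.norm_real, Real.norm_of_nonneg r0.le, div_le_iff₀ r0]
    linarith
  have h4 := dist1 (f := fun s => f (w + ρ * s)) (hf.comp (by fun_prop) h1)
    (fun a ha b hb e => mul_left_cancel₀ r1 (add_left_cancel (hi (h1 ha) (h1 hb) e))) h3
  rw [h2 _ (mem_ball_zero_iff.mpr (by linarith)), h2 _ (mem_ball_self one_pos),
    mul_div_cancel₀ _ r1, add_sub_cancel, mul_zero, add_zero, norm_mul, norm_mul _ (_ * _),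
    ← mul_assoc] at h4
  exact le_of_mul_le_mul_right h4 (by simpa using r0.ne')

theorem two0 {h : ℂ → ℂ} (hh : DifferentiableOn ℂ h (closedBall 0 1)) {M l : ℝ} (l0 : 0 ≤ l)
    (h1 : ∀ s ∈ closedBall (0 : ℂ) 1, ‖h s‖ ≤ M)
    (h2 : ∀ s ∈ closedBall (0 : ℂ) 1, s.im = 0 → ‖h s‖ ≤ M * Real.exp (-l)) {s : ℂ}
    (hs : ‖s‖ ≤ 1 / 10) (h3 : 0 < s.im) : ‖h s‖ ≤ M * Real.exp (-(l / 2)) := by
  have M0 := (norm_nonneg _).trans (h1 0 (mem_closedBall_self zero_le_one))
  have e0 : ∀ z : ℂ, ‖h z * Complex.exp (l * (1 - 2 * z ^ 2 + 4 * Complex.I * z))‖ =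
      ‖h z‖ * Real.exp (l * (1 - 2 * (z.re ^ 2 - z.im ^ 2) - 4 * z.im)) := fun z => by
    rw [norm_mul, Complex.norm_exp]
    simp [sq, sub_eq_add_neg]
  have e1 : closure (ball (0 : ℂ) 1 ∩ {z | 0 < z.im}) ⊆ closedBall 0 1 :=
    (closure_mono inter_subset_left).trans closure_ball_subset_closedBall
  have e2 := Complex.norm_le_of_forall_mem_frontier_norm_le (U := ball (0 : ℂ) 1 ∩ {z | 0 < z.im})
    (isBounded_ball.subset inter_subset_left)
    (f := fun z => h z * Complex.exp (l * (1 - 2 * z ^ 2 + 4 * Complex.I * z)))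
    (DifferentiableOn.diffContOnCl ((hh.mono e1).mul (by fun_prop))) (C := M) (fun z hz => by
      have b1 := e1 (frontier_subset_closure hz)
      rw [e0]
      rcases frontier_inter_subset _ _ hz with ⟨b2, b3⟩ | ⟨-, b3⟩
      · have b4 : 0 ≤ z.im := closure_lt_subset_le continuous_const Complex.continuous_im b3
        rw [frontier_ball _ one_ne_zero, mem_sphere_zero_iff_norm] at b2
        have b5 := Complex.sq_norm z
        rw [b2, Complex.normSq_apply] at b5
        refine (mul_le_of_le_one_right (norm_nonneg _) (Real.exp_le_one_iff.mpr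
          (mul_nonpos_of_nonneg_of_nonpos l0 ?_))).trans (h1 z b1)
        nlinarith [sq_nonneg z.re]
      · have b4 : 0 = z.im := frontier_lt_subset_eq continuous_const Complex.continuous_im b3
        refine (mul_le_mul_of_nonneg_right (h2 z b1 b4.symm) (Real.exp_pos _).le).trans ?_
        rw [mul_assoc, ← Real.exp_add, ← b4]
        refine mul_le_of_le_one_right M0 (Real.exp_le_one_iff.mpr ?_)
        nlinarith [mul_nonneg l0 (sq_nonneg z.re)])
    (z := s) (subset_closure ⟨mem_ball_zero_iff.mpr (by linarith), h3⟩)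
  rw [e0, ← le_div_iff₀ (Real.exp_pos _), div_eq_mul_inv, ← Real.exp_neg] at e2
  refine e2.trans (mul_le_mul_of_nonneg_left (Real.exp_le_exp.mpr ?_) M0)
  have b1 := abs_le.mp ((Complex.abs_re_le_norm s).trans hs)
  have b2 := abs_le.mp ((Complex.abs_im_le_norm s).trans hs)
  have b3 : 1 / 2 ≤ 1 - 2 * (s.re ^ 2 - s.im ^ 2) - 4 * s.im := by nlinarith
  nlinarith

theorem two {h : ℂ → ℂ} (hh : DifferentiableOn ℂ h (closedBall 0 1)) {M l : ℝ} (l0 : 0 ≤ l)
    (h1 : ∀ s ∈ closedBall (0 : ℂ) 1, ‖h s‖ ≤ M)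
    (h2 : ∀ s ∈ closedBall (0 : ℂ) 1, s.im = 0 → ‖h s‖ ≤ M * Real.exp (-l)) {s : ℂ}
    (hs : ‖s‖ ≤ 1 / 10) : ‖h s‖ ≤ M * Real.exp (-(l / 2)) := by
  rcases lt_trichotomy 0 s.im with h3 | h3 | h3
  · exact two0 hh l0 h1 h2 hs h3
  · exact (h2 s (mem_closedBall_zero_iff.mpr (by linarith)) h3.symm).trans
      (mul_le_mul_of_nonneg_left (Real.exp_le_exp.mpr (by linarith))
        ((norm_nonneg _).trans (h1 0 (mem_closedBall_self zero_le_one))))
  · simpa using two0 (h := fun z => h (-z)) (hh.comp (by fun_prop) fun z hz => by simpa using hz)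
      l0 (fun z hz => h1 _ (by simpa using hz))
      (fun z hz e => h2 _ (by simpa using hz) (by simpa using e)) (s := -s) (by simpa using hs)
      (by simpa using h3)

end Pool.Agent.H.MP_5011cf_an
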