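import Pool.Agent.H.MP_5011cf_an.A

set_option autoImplicit false
open Filter Topology Metric Set MeasureTheory Real

namespace Pool.Agent.H.MP_5011cf_an

noncomputable def ex (θ : ℝ) : ℂ := Complex.exp (θ * Complex.I)

theorem ex_norm (θ : ℝ) : ‖ex θ‖ = 1 := Complex.norm_exp_ofReal_mul_I θ

theorem ex_cont : Continuous ex := by unfold ex; fun_prop

theorem ex_sub (a b : ℝ) : ‖ex a - ex b‖ ≤ |a - b| := by
  have e : ex a - ex b = ex b * (Complex.exp (Complex.I * (a - b : ℝ)) - 1) := by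
    rw [ex, ex, mul_sub, ← Complex.exp_add]
    congr 2
    · push_cast; ring
    · exact (mul_one _).symm
  rw [e, norm_mul, ex_norm, one_mul]
  exact Real.norm_exp_I_mul_ofReal_sub_one_le

theorem ex_ge (θ : ℝ) (z : ℂ) : 1 - ‖z‖ ≤ ‖ex θ - z‖ := ex_norm θ ▸ norm_sub_norm_le _ _

theorem polar (z : ℂ) : ∃ θ ∈ Icc 0 (2 * π), z = ‖z‖ * ex θ := by
  have h := (Complex.norm_mul_exp_arg_mul_I z).symm
  rcases le_or_gt 0 z.arg with e | e
  · exact ⟨z.arg, ⟨e, by linarith [Complex.arg_le_pi z, pi_pos]⟩, h⟩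
  · refine ⟨z.arg + 2 * π, ⟨by linarith [Complex.neg_pi_lt_arg z, pi_pos], by linarith⟩, ?_⟩
    rw [ex, Complex.ofReal_add, add_mul, Complex.exp_add]
    push_cast
    rwa [Complex.exp_two_pi_mul_I, mul_one]

theorem herg {U : Set ℝ} (hU : MeasurableSet U) (hs : U ⊆ Ico 0 (2 * π)) :
    ∃ H : ℂ → ℂ, DifferentiableOn ℂ H (ball 0 1) ∧ (∀ z ∈ ball (0 : ℂ) 1, 0 ≤ (H z).re) ∧
      (∀ z, ‖z‖ ≤ 1 / 2 → (H z).re ≤ 3 * volume.real U) ∧ ∀ z ∈ ball (0 : ℂ) 1, (H z).re ≤ 1 / 100 →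
        ∃ θ ∈ Ico 0 (2 * π), θ ∉ U ∧ ‖z - ‖z‖ * ex θ‖ ≤ (1 - ‖z‖) / 20 := by
  have c := ex_cont
  have n0 : ∀ z ∈ ball (0 : ℂ) 1, ∀ θ, ex θ - z ≠ 0 := fun z hz θ =>
    norm_pos_iff.mp ((sub_pos.mpr (mem_ball_zero_iff.mp hz)).trans_le (ex_ge θ z))
  have ii : ∀ {E : Type} [NormedAddCommGroup E] {g : ℝ → E}, Continuous g → IntegrableOn g U :=
    fun hg => hg.integrableOn_Icc.mono_set (hs.trans Ico_subset_Icc_self)
  have k1 : ∀ z ∈ ball (0 : ℂ) 1, Continuous fun θ => (ex θ + z) / (ex θ - z) := fun z hz =>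
    Continuous.div (by fun_prop) (by fun_prop) (n0 z hz)
  have k2 : ∀ z ∈ ball (0 : ℂ) 1, Continuous fun θ => (1 - ‖z‖ ^ 2) / ‖ex θ - z‖ ^ 2 := fun z hz =>
    Continuous.div (by fun_prop) (by fun_prop) fun θ => pow_ne_zero 2 (norm_ne_zero_iff.mpr (n0 z hz θ))
  have k3 : ∀ z ∈ ball (0 : ℂ) 1, ∀ θ, 0 ≤ (1 - ‖z‖ ^ 2) / ‖ex θ - z‖ ^ 2 := fun z hz θ =>
    div_nonneg (by nlinarith [mem_ball_zero_iff.mp hz, norm_nonneg z]) (sq_nonneg _)
  have e1 : ∀ z ∈ ball (0 : ℂ) 1, (∫ θ in U, (ex θ + z) / (ex θ - z)).re =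
      ∫ θ in U, (1 - ‖z‖ ^ 2) / ‖ex θ - z‖ ^ 2 := fun z hz => by
    refine (integral_re (ii (k1 z hz))).symm.trans (integral_congr_ae (Eventually.of_forall
      fun θ => ?_))
    have := congrFun (poissonKernel_eq_re_herglotzRieszKernel (c := 0) (w := z)) (ex θ)
    simpa [poissonKernel_def, herglotzRieszKernel_def, ex_norm] using this.symm
  refine ⟨fun z => ∫ θ in U, (ex θ + z) / (ex θ - z), fun z hz => ?_, fun z hz => ?_,
    fun z hz => ?_, fun z hz h => ?_⟩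
  · obtain ⟨r, r0, r1⟩ := exists_between (mem_ball_zero_iff.mp hz)
    have b1 : ball (0 : ℂ) r ⊆ ball 0 1 := ball_subset_ball r1.le
    refine (hasDerivAt_integral_of_dominated_loc_of_deriv_le (μ := volume.restrict U)
      (F := fun z θ => (ex θ + z) / (ex θ - z)) (F' := fun z θ => 2 * ex θ / (ex θ - z) ^ 2)
      (bound := fun _ => 2 / (1 - r) ^ 2) (isOpen_ball.mem_nhds (mem_ball_zero_iff.mpr r0))
      ((isOpen_ball.eventually_mem hz).mono fun y hy => (k1 y hy).aestronglyMeasurable)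
      (ii (k1 z hz)) (Continuous.div (by fun_prop) (by fun_prop) fun θ =>
        pow_ne_zero 2 (n0 z hz θ)).aestronglyMeasurable (Eventually.of_forall fun θ y hy => ?_)
      (ii continuous_const) (Eventually.of_forall fun θ y hy => ?_)).2.differentiableAt.differentiableWithinAt
    · rw [norm_div, norm_mul, ex_norm, norm_pow, Complex.norm_two, mul_one]
      have := ex_ge θ y
      have := mem_ball_zero_iff.mp hy
      exact div_le_div_of_nonneg_left zero_le_two (pow_pos (by linarith) 2)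
        (pow_le_pow_left₀ (by linarith) (by linarith) 2)
    · refine (((hasDerivAt_id y).const_add (ex θ)).div ((hasDerivAt_id y).const_sub (ex θ))
        (n0 y (b1 hy) θ)).congr_deriv ?_
      simp only [id]
      ring
  · rw [e1 z hz]
    exact integral_nonneg (k3 z hz)
  · have hz' : z ∈ ball (0 : ℂ) 1 := mem_ball_zero_iff.mpr (by linarith)
    rw [e1 z hz']
    refine (setIntegral_mono_on (ii (k2 z hz')) (ii (continuous_const (y := (3 : ℝ)))) hU
      fun θ _ => ?_).trans (by simp [mul_comm])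
    have b1 := pow_le_pow_left₀ (by linarith) (ex_ge θ z) 2
    rw [div_le_iff₀ (pow_pos (norm_pos_iff.mpr (n0 z hz' θ)) 2)]
    nlinarith [norm_nonneg z]
  by_contra hc
  push Not at hc
  obtain ⟨t, ht, e2⟩ := polar z
  obtain ⟨δ, hδ⟩ : ∃ δ, 1 - ‖z‖ = 20 * δ := ⟨(1 - ‖z‖) / 20, by ring⟩
  have z1 := mem_ball_zero_iff.mp hz
  have z0 := norm_nonneg z
  obtain ⟨a, a1, a2⟩ : ∃ a, Ioo a (a + δ) ⊆ Ico 0 (2 * π) ∧ ∀ θ ∈ Ioo a (a + δ), |t - θ| ≤ δ := by
    rcases le_total t π with h | h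
    · exact ⟨t, fun θ hθ => ⟨by linarith [hθ.1, ht.1], by linarith [hθ.2, pi_gt_three]⟩,
        fun θ hθ => abs_le.mpr ⟨by linarith [hθ.2], by linarith [hθ.1]⟩⟩
    · exact ⟨t - δ, fun θ hθ => ⟨by linarith [hθ.1, pi_gt_three], by linarith [hθ.2, ht.2]⟩,
        fun θ hθ => abs_le.mpr ⟨by linarith [hθ.2], by linarith [hθ.1]⟩⟩
  have a3 : ∀ θ ∈ Ioo a (a + δ), ‖z - ‖z‖ * ex θ‖ ≤ δ := fun θ hθ => by
    rw [show z - ‖z‖ * ex θ = ‖z‖ * (ex t - ex θ) by rw [mul_sub, ← e2], norm_mul,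
      Complex.norm_real, norm_norm]
    nlinarith [(ex_sub t θ).trans (a2 θ hθ), norm_nonneg (ex t - ex θ)]
  have a4 : Ioo a (a + δ) ⊆ U := fun θ hθ => by
    by_contra e
    linarith [hc θ (a1 hθ) e, a3 θ hθ]
  have d0 : 0 < δ := by linarith
  have a5 := (setIntegral_mono_on (f := fun _ => 1 / (80 * δ)) ((ii continuous_const).mono_set a4)
    ((ii (k2 z hz)).mono_set a4) measurableSet_Ioo fun θ hθ => by
      have b1 := norm_sub_le (ex θ - ‖z‖ * ex θ) (z - ‖z‖ * ex θ)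
      rw [sub_sub_sub_cancel_right, ← one_sub_mul, norm_mul, ex_norm, ← Complex.ofReal_one,
        ← Complex.ofReal_sub, Complex.norm_real, Real.norm_of_nonneg (by linarith)] at b1
      have b2 := pow_le_pow_left₀ (norm_nonneg _) (show ‖ex θ - z‖ ≤ 40 * δ by
        linarith [a3 θ hθ]) 2
      rw [div_le_div_iff₀ (by positivity) (pow_pos (norm_pos_iff.mpr (n0 z hz θ)) 2),
        show 1 - ‖z‖ ^ 2 = 20 * δ * (1 + ‖z‖) by rw [← hδ]; ring]
      nlinarith [mul_nonneg (mul_pos d0 d0).le z0]).trans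
    (setIntegral_mono_set (ii (k2 z hz)) (Eventually.of_forall (k3 z hz)) a4.eventuallyLE)
  rw [← e1 z hz, setIntegral_const, Real.volume_real_Ioo_of_le (by linarith), add_sub_cancel_left,
    smul_eq_mul, show δ * (1 / (80 * δ)) = 1 / 80 by field_simp] at a5
  linarith

theorem egor {g : ℂ → ℂ} (hg : ContinuousOn g (ball 0 1)) {B : Set ℝ} (hB : MeasurableSet B)
    (h : ∀ᵐ θ : ℝ, θ ∈ Ico 0 (2 * π) \ B → Tendsto (fun r : ℝ => g (r * ex θ)) (𝓝[<] 1) (𝓝 0))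
    {ε : ℝ} (hε : 0 < ε) : ∃ U : Set ℝ, MeasurableSet U ∧ U ⊆ Ico 0 (2 * π) ∧
      volume U ≤ ENNReal.ofReal (1 / 1000) ∧ ∃ r < 1, ∀ θ ∈ Ico 0 (2 * π), θ ∉ B → θ ∉ U →
        ∀ ρ : ℝ, r < ρ → ρ < 1 → ‖g (ρ * ex θ)‖ ≤ ε := by
  have c := ex_cont
  obtain ⟨A, hA⟩ : ∃ A : ℕ → Set ℝ, A = fun n => (Ico 0 (2 * π) \ B) ∩
    ⋃ ρ ∈ Ioo (1 - (1 / 2 : ℝ) ^ n) 1, {θ | ε < ‖g ((ρ : ℝ) * ex θ)‖} := ⟨_, rfl⟩
  have m1 : ∀ n, MeasurableSet (A n) := fun n => by
    rw [hA]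
    refine (measurableSet_Ico.diff hB).inter (isOpen_biUnion fun ρ hρ => isOpen_lt continuous_const
      (hg.comp_continuous (by fun_prop) fun θ => ?_).norm).measurableSet
    have := pow_le_one₀ (n := n) (by norm_num : (0 : ℝ) ≤ 1 / 2) (by norm_num)
    rw [mem_ball_zero_iff, norm_mul, ex_norm, mul_one, Complex.norm_real,
      Real.norm_of_nonneg (by linarith [hρ.1])]
    exact hρ.2
  have m2 : ∀ n, A n ⊆ Ico 0 (2 * π) := fun n => hA ▸ inter_subset_left.trans diff_subset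
  have m3 := tendsto_measure_iInter_atTop (μ := volume) (fun n => (m1 n).nullMeasurableSet)
    (fun i j hij => by
      rw [hA]
      refine inter_subset_inter_right _ (biUnion_subset_biUnion_left (Ioo_subset_Ioo_left ?_))
      linarith [pow_le_pow_of_le_one (by norm_num : (0 : ℝ) ≤ 1 / 2) (by norm_num) hij])
    ⟨0, ((measure_mono (m2 0)).trans_lt measure_Ico_lt_top).ne⟩
  have m4 : volume (⋂ n, A n) = 0 := by
    refine measure_mono_null ?_ (mem_ae_iff.mp h)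
    intro θ hθ e
    have b1 := mem_iInter.mp hθ
    rw [hA] at b1
    obtain ⟨r, r0, r1⟩ := mem_nhdsLT_iff_exists_Ioo_subset.mp
      (Metric.tendsto_nhds.mp (e (b1 0).1) ε hε)
    obtain ⟨n, hn⟩ := exists_pow_lt_of_lt_one (sub_pos.mpr (mem_Iio.mp r0)) (y := 1 / 2) (by norm_num)
    obtain ⟨ρ, b2, b3⟩ := mem_iUnion₂.mp (b1 n).2
    have b4 : dist (g (ρ * ex θ)) 0 < ε := r1 ⟨by linarith [b2.1], b2.2⟩
    rw [dist_zero_right] at b4
    exact lt_asymm b3 b4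
  rw [m4] at m3
  obtain ⟨n, hn⟩ := ((tendsto_order.mp m3).2 (ENNReal.ofReal (1 / 1000)) (by simp)).exists
  refine ⟨A n, m1 n, m2 n, hn.le, 1 - (1 / 2) ^ n, by simp, fun θ t1 t2 t3 ρ r0 r1 => ?_⟩
  by_contra e
  exact t3 (hA ▸ ⟨⟨t1, t2⟩, mem_iUnion₂.mpr ⟨ρ, ⟨r0, r1⟩, not_le.mp e⟩⟩)

theorem priv {g : ℂ → ℂ} (hg : DifferentiableOn ℂ g (ball 0 1)) {M : ℝ} (M0 : 0 < M)
    (hM : ∀ z w : ℂ, ‖w‖ < 1 → ‖z - w‖ ≤ (1 - ‖w‖) / 2 → ‖g w‖ ≤ 1 → ‖g z‖ ≤ M) {B : Set ℝ}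
    (hB : MeasurableSet B) (B1 : B ⊆ Ico 0 (2 * π)) (B2 : volume B ≤ ENNReal.ofReal (1 / 1000))
    (h : ∀ᵐ θ : ℝ, θ ∈ Ico 0 (2 * π) \ B → Tendsto (fun r : ℝ => g (r * ex θ)) (𝓝[<] 1) (𝓝 0))
    {z0 : ℂ} (h0 : ‖z0‖ ≤ 1 / 2) : g z0 = 0 := by
  obtain ⟨U1, u1, u2, u3, r1, u4, u5⟩ := egor hg.continuousOn hB h one_pos
  obtain ⟨C, hC⟩ := (isCompact_closedBall (0 : ℂ) r1).exists_bound_of_continuousOn
    (hg.continuousOn.mono (closedBall_subset_ball u4))
  have nn : ∀ (ρ θ : ℝ), 0 ≤ ρ → ‖ρ * ex θ‖ = ρ := fun ρ θ r0 => by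
    rw [norm_mul, ex_norm, mul_one, Complex.norm_real, Real.norm_of_nonneg r0]
  have key : ∀ x y : ℝ, 0 ≤ x → 0 ≤ y →
      ‖g z0‖ * rexp (-(9 * y)) ≤ max C M * rexp (-(10 * y)) + M * rexp (-x) := fun x y x0 y0 => by
    obtain ⟨U2, v1, v2, v3, r2, v4, v5⟩ := egor hg.continuousOn hB h (ε := M * rexp (-(2 * x)))
      (by positivity)
    obtain ⟨H, H1, H2, H3, H4⟩ := herg ((hB.union u1).union v1) (union_subset (union_subset B1 u2) v2)
    have e1 : volume.real (B ∪ U1 ∪ U2) ≤ 3 / 1000 := by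
      refine ENNReal.toReal_le_of_le_ofReal (by norm_num) ((measure_union_le _ _).trans
        ((add_le_add ((measure_union_le _ _).trans (add_le_add B2 u3)) v3).trans (le_of_eq ?_)))
      rw [← ENNReal.ofReal_add (by norm_num) (by norm_num),
        ← ENNReal.ofReal_add (by norm_num) (by norm_num)]
      norm_num
    obtain ⟨r, r3, r4, r5, r6⟩ : ∃ r < 1, r1 ≤ r ∧ r2 ≤ r ∧ 1 / 2 ≤ r := ⟨max (max r1 r2) (1 / 2),
      max_lt (max_lt u4 v4) (by norm_num), le_max_of_le_left (le_max_left _ _),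
      le_max_of_le_left (le_max_right _ _), le_max_right _ _⟩
    obtain ⟨ρ, hρ⟩ : ∃ ρ, 3 * ρ = r + 2 := ⟨(r + 2) / 3, by ring⟩
    have s1 : closedBall (0 : ℂ) ρ ⊆ ball 0 1 := closedBall_subset_ball (by linarith)
    have s2 : closure (ball (0 : ℂ) ρ ∩ (fun z => (H z).re) ⁻¹' Iio (1 / 100)) ⊆ closedBall 0 ρ :=
      (closure_mono inter_subset_left).trans closure_ball_subset_closedBall
    have c1 : ContinuousOn (fun z => (H z).re) (ball 0 1) :=
      Complex.continuous_re.comp_continuousOn H1.continuousOn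
    have e0 : ∀ z, ‖g z * Complex.exp (-(1000 * y : ℝ) * H z)‖ =
        ‖g z‖ * rexp (-(1000 * y * (H z).re)) := fun z => by
      rw [norm_mul, Complex.norm_exp, neg_mul, Complex.neg_re, Complex.re_ofReal_mul]
    have e2 := Complex.norm_le_of_forall_mem_frontier_norm_le
      (U := ball (0 : ℂ) ρ ∩ (fun z => (H z).re) ⁻¹' Iio (1 / 100))
      (isBounded_ball.subset inter_subset_left)
      (f := fun z => g z * Complex.exp (-(1000 * y : ℝ) * H z))
      (DifferentiableOn.diffContOnCl ((hg.mul (H1.const_mul _).cexp).mono (s2.trans s1)))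
      (C := max C M * rexp (-(10 * y)) + M * rexp (-x)) (fun z hz => ?_) (z := z0)
      (subset_closure ⟨mem_ball_zero_iff.mpr (by linarith), by
        have := H3 z0 h0
        simp only [mem_preimage, mem_Iio]
        linarith⟩)
    · rw [e0] at e2
      refine le_trans (mul_le_mul_of_nonneg_left (exp_le_exp.mpr ?_) (norm_nonneg _)) e2
      nlinarith [H3 z0 h0]
    have b1 := s2 hz.1
    have b2 := mem_ball_zero_iff.mp (s1 b1)
    have b3 : (H z).re ≤ 1 / 100 := ContinuousWithinAt.closure_le hz.1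
      ((c1.continuousAt (isOpen_ball.mem_nhds (s1 b1))).continuousWithinAt)
      continuousWithinAt_const fun w hw => le_of_lt hw.2
    obtain ⟨θ, t1, t2, t3⟩ := H4 z (s1 b1) b3
    simp only [mem_union, not_or] at t2
    have M1 : 0 < max C M := lt_max_of_lt_right M0
    rw [e0]
    by_cases hc : (H z).re < 1 / 100
    · have b4 : ‖z‖ = ρ := by
        refine (mem_closedBall_zero_iff.mp b1).eq_of_not_lt fun e => hz.2 ?_
        rw [((c1.mono (ball_subset_closedBall.trans s1)).isOpen_inter_preimage isOpen_ball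
          isOpen_Iio).interior_eq]
        exact ⟨mem_ball_zero_iff.mpr e, hc⟩
      rw [b4] at t3 b2
      obtain ⟨δ, hδ⟩ : ∃ δ : ℝ, 1 - ρ = 2 * δ := ⟨(1 - ρ) / 2, by ring⟩
      have d0 : 0 < δ := by linarith
      have d1 : ∀ s ∈ closedBall (0 : ℂ) 1, ‖δ * ex θ * s‖ ≤ δ := fun s hs => by
        rw [norm_mul, nn δ θ d0.le]
        exact mul_le_of_le_one_right d0.le (mem_closedBall_zero_iff.mp hs)
      have d2 := nn ρ θ (by linarith)
      have d3 : (δ * ex θ : ℂ) ≠ 0 := norm_pos_iff.mp (by rwa [nn δ θ d0.le])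
      have b5 := two (h := fun s => g (ρ * ex θ + δ * ex θ * s)) (hg.comp (by fun_prop)
        fun s hs => mem_ball_zero_iff.mpr (by linarith [norm_add_le (ρ * ex θ) (δ * ex θ * s), d1 s hs]))
        (M := M) (l := 2 * x) (by linarith) (fun s hs => hM _ (ρ * ex θ) (by linarith)
          (by rw [add_sub_cancel_left]; linarith [d1 s hs]) (u5 θ t1 t2.1.1 t2.1.2 ρ (by linarith) b2))
        (fun s hs e => by
          have := abs_le.mp ((Complex.abs_re_le_norm s).trans (mem_closedBall_zero_iff.mp hs))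
          rw [show ρ * ex θ + δ * ex θ * s = (ρ + δ * s.re : ℝ) * ex θ by
            rw [← Complex.re_add_im s, e]; simp; ring]
          exact v5 θ t1 t2.1.1 t2.2 _ (by nlinarith) (by nlinarith))
        (s := (z - ρ * ex θ) / (δ * ex θ)) (by
          rw [norm_div, nn δ θ d0.le, div_le_iff₀ d0]
          linarith)
      rw [mul_div_cancel₀ _ d3, add_sub_cancel, mul_div_cancel_left₀ _ two_ne_zero] at b5
      refine le_add_of_nonneg_of_le (by positivity) ((mul_le_of_le_one_right (norm_nonneg _)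
        (exp_le_one_iff.mpr ?_)).trans b5)
      nlinarith [H2 z (s1 b1)]
    · refine le_add_of_le_of_nonneg (mul_le_mul ?_ (exp_le_exp.mpr (by nlinarith)) (exp_pos _).le
        M1.le) (by positivity)
      rcases le_or_gt ‖z‖ r1 with b4 | b4
      · exact le_max_of_le_left (hC z (mem_closedBall_zero_iff.mpr b4))
      · have d2 := nn ‖z‖ θ (norm_nonneg z)
        exact le_max_of_le_right (hM z (‖z‖ * ex θ) (by linarith) (by linarith)
          (u5 θ t1 t2.1.1 t2.1.2 _ b4 b2))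
  have k2 : ∀ y : ℝ, 0 ≤ y → ‖g z0‖ ≤ max C M * rexp (-y) := fun y y0 => by
    have b1 := ge_of_tendsto (((tendsto_exp_neg_atTop_nhds_zero.const_mul M)).const_add
      (max C M * rexp (-(10 * y)))) ((eventually_ge_atTop 0).mono fun x x0 => key x y x0 y0)
    rw [mul_zero, add_zero, show -(10 * y) = -y + -(9 * y) by ring, exp_add, ← mul_assoc] at b1
    exact le_of_mul_le_mul_right b1 (exp_pos _)
  simpa using ge_of_tendsto (tendsto_exp_neg_atTop_nhds_zero.const_mul (max C M))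
    ((eventually_ge_atTop 0).mono k2)

theorem main {f : ℂ → ℂ} (hf : DifferentiableOn ℂ f (ball 0 1)) (hi : InjOn f (ball 0 1)) (c : ℂ)
    {B : Set ℝ} (hB : MeasurableSet B) (B1 : B ⊆ Ico 0 (2 * π))
    (B2 : volume B ≤ ENNReal.ofReal (1 / 1000))
    (h : ∀ᵐ θ : ℝ, θ ∈ Ico 0 (2 * π) \ B →
      Tendsto (fun r : ℝ => deriv f (r * ex θ)) (𝓝[<] 1) (𝓝 c)) :
    ∀ z ∈ ball (0 : ℂ) 1, deriv f z = c := by
  have h1 := hf.deriv isOpen_ball
  refine (h1.analyticOnNhd isOpen_ball).eqOn_of_preconnected_of_eventuallyEq analyticOnNhd_const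
    (convex_ball 0 1).isPreconnected (mem_ball_self one_pos) ?_
  filter_upwards [closedBall_mem_nhds 0 (by norm_num : (0 : ℝ) < 1 / 2)] with z hz
  refine sub_eq_zero.mp (priv (h1.sub_const c) (M := 1536 * rexp 384 * (1 + ‖c‖) + ‖c‖)
    (by positivity) (fun z w w1 w2 w3 => ?_) hB B1 B2 (h.mono fun θ e e' =>
      tendsto_sub_nhds_zero_iff.mpr (e e')) (mem_closedBall_zero_iff.mp hz))
  have b1 : ‖deriv f w‖ ≤ 1 + ‖c‖ := by linarith [norm_sub_norm_le (deriv f w) c]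
  linarith [norm_sub_le (deriv f z) c, dist2 hf hi w1 w2,
    mul_le_mul_of_nonneg_left b1 (by positivity : 0 ≤ 1536 * rexp 384)]

end Pool.Agent.H.MP_5011cf_an
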